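import Mathlib

namespace Pool.Agent.P.MP_6fabb2_lc

/-- Numerical terms of the language of second-order arithmetic. -/
inductive Tm : Type
  | nvar : ℕ → Tm
  | tzero : Tm
  | tone : Tm
  | tadd : Tm → Tm → Tm
  | tmul : Tm → Tm → Tm

/-- Bounded-quantifier formulas, with number variables and set variables. -/
inductive Bf : Type
  | feq : Tm → Tm → Bf
  | flt : Tm → Tm → Bf
  | fmem : Tm → ℕ → Bf
  | fnot : Bf → Bf
  | fand : Bf → Bf → Bf
  | fball : ℕ → Tm → Bf → Bf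

variable {M : Type} [Zero M] [One M] [Add M] [Mul M] [LT M]

/-- Value of a term under an assignment of the number variables. -/
noncomputable def tval (ρ : ℕ → M) (t : Tm) : M :=
  Tm.rec (motive := fun _ => M) ρ 0 1 (fun _ _ a b => a + b) (fun _ _ a b => a * b) t

/-- Truth of a bounded formula under assignments of the set and of the number variables. -/
noncomputable def Holds (σ : ℕ → Set M) (φ : Bf) : (ℕ → M) → Prop :=
  Bf.rec (motive := fun _ => (ℕ → M) → Prop)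
    (fun s t ρ => tval ρ s = tval ρ t)
    (fun s t ρ => tval ρ s < tval ρ t)
    (fun t k ρ => tval ρ t ∈ σ k)
    (fun _ P ρ => ¬ P ρ)
    (fun _ _ P Q ρ => P ρ ∧ Q ρ)
    (fun i t _ P ρ => ∀ a : M, a < tval ρ t → P (Function.update ρ i a))
    φ

/-- `(M, S, 0, 1, +, *, <)` is a model of `RCA₀`. -/
structure IsRCA0 (S : Set (Set M)) : Prop where
  nonempty : S.Nonempty
  succ_ne_zero : ∀ n : M, n + 1 ≠ 0
  succ_inj : ∀ m n : M, m + 1 = n + 1 → m = n
  add_zero : ∀ m : M, m + 0 = m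
  add_succ : ∀ m n : M, m + (n + 1) = (m + n) + 1
  mul_zero : ∀ m : M, m * 0 = 0
  mul_succ : ∀ m n : M, m * (n + 1) = m * n + m
  not_lt_zero : ∀ m : M, ¬ m < 0
  lt_succ : ∀ m n : M, m < n + 1 ↔ (m < n ∨ m = n)
  sigma1_induction : ∀ (θ : Bf) (i j : ℕ) (ρ : ℕ → M) (σ : ℕ → Set M), (∀ k, σ k ∈ S) →
    (∃ m, Holds σ θ (Function.update (Function.update ρ i 0) j m)) →
    (∀ n, (∃ m, Holds σ θ (Function.update (Function.update ρ i n) j m)) →
      ∃ m, Holds σ θ (Function.update (Function.update ρ i (n + 1)) j m)) →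
    ∀ n, ∃ m, Holds σ θ (Function.update (Function.update ρ i n) j m)
  delta1_comprehension : ∀ (θ η : Bf) (i j j' : ℕ) (ρ : ℕ → M) (σ : ℕ → Set M), (∀ k, σ k ∈ S) →
    (∀ n, (∃ m, Holds σ θ (Function.update (Function.update ρ i n) j m)) ↔
      ∀ m, Holds σ η (Function.update (Function.update ρ i n) j' m)) →
    {n | ∃ m, Holds σ θ (Function.update (Function.update ρ i n) j m)} ∈ S

/-- Simpson's pairing function. -/
def spair (x y : M) : M := (x + y) * (x + y) + x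

/-- Hindman's theorem for sums of exactly two elements and two colours holds in `(M, S)`. -/
def HT22 (S : Set (Set M)) : Prop :=
  ∀ F ∈ S, (∀ x, ∃! z, spair x z ∈ F) → (∀ x z, spair x z ∈ F → z = 0 ∨ z = 1) →
    ∃ H ∈ S, (∀ n, ∃ m ∈ H, n < m) ∧
      ∃ z, ∀ x ∈ H, ∀ y ∈ H, x < y → spair (x + y) z ∈ F

/-- The rainbow Ramsey theorem for pairs and 2-bounded colourings holds in `(M, S)`. -/
def RRT22 (S : Set (Set M)) : Prop :=
  ∀ F ∈ S, (∀ x y, x < y → ∃! z, spair (spair x y) z ∈ F) →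
    (∀ z x₁ y₁ x₂ y₂ x₃ y₃, x₁ < y₁ → x₂ < y₂ → x₃ < y₃ →
      spair (spair x₁ y₁) z ∈ F → spair (spair x₂ y₂) z ∈ F → spair (spair x₃ y₃) z ∈ F →
      (x₁ = x₂ ∧ y₁ = y₂) ∨ (x₁ = x₃ ∧ y₁ = y₃) ∨ (x₂ = x₃ ∧ y₂ = y₃)) →
    ∃ H ∈ S, (∀ n, ∃ m ∈ H, n < m) ∧
      ∀ x ∈ H, ∀ y ∈ H, ∀ u ∈ H, ∀ v ∈ H, x < y → u < v →
        ∀ z, spair (spair x y) z ∈ F → spair (spair u v) z ∈ F → x = u ∧ y = v

end Pool.Agent.P.MP_6fabb2_lc
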