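import Mathlib

/-! Equidistribution in the mean: a slope that spreads most large finite sets. -/

namespace Pool.Agent.P.MP_6fabb2_lc

open Finset

/-- `|∑_{x ∈ F} e^{i x θ}|^2` written as a double cosine sum -/
noncomputable def Sq (F : Finset ℕ) (θ : ℝ) : ℝ :=
  ∑ x ∈ F, ∑ y ∈ F, Real.cos (((x : ℝ) - y) * θ)

lemma Sq_eq (F : Finset ℕ) (θ : ℝ) :
    Sq F θ = (∑ x ∈ F, Real.cos (x * θ)) ^ 2 + (∑ x ∈ F, Real.sin (x * θ)) ^ 2 := by
  unfold Sq
  rw [pow_two, pow_two, Finset.sum_mul_sum, Finset.sum_mul_sum, ← Finset.sum_add_distrib]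
  refine Finset.sum_congr rfl fun x _ => ?_
  rw [← Finset.sum_add_distrib]
  refine Finset.sum_congr rfl fun y _ => ?_
  rw [sub_mul, Real.cos_sub]

lemma Sq_nonneg (F : Finset ℕ) (θ : ℝ) : 0 ≤ Sq F θ := by rw [Sq_eq]; positivity

lemma Sq_cont (F : Finset ℕ) : Continuous (Sq F) := by unfold Sq; fun_prop

lemma cos_sum_sq_le (F : Finset ℕ) (θ β : ℝ) :
    (∑ x ∈ F, Real.cos (x * θ + β)) ^ 2 ≤ Sq F θ := by
  rw [Sq_eq]
  simp only [Real.cos_add, Finset.sum_sub_distrib, ← Finset.sum_mul]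
  have := Real.sin_sq_add_cos_sq β
  generalize ∑ x ∈ F, Real.cos (x * θ) = C
  generalize ∑ x ∈ F, Real.sin (x * θ) = S
  nlinarith [sq_nonneg (C * Real.sin β + S * Real.cos β)]

/-- `F` is well spread by the slope `θ` -/
def Spread (F : Finset ℕ) (θ : ℝ) : Prop := Sq F θ + Sq F (2 * θ) < (F.card : ℝ) ^ 2 / 64

lemma Spread.exists_neg {F : Finset ℕ} {θ : ℝ} (h : Spread F θ) (β : ℝ) :
    ∃ x ∈ F, Real.cos (x * θ + β) < -(1 / 4) := by
  by_contra hc
  push Not at hc
  have h1 := cos_sum_sq_le F θ β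
  have h2 := cos_sum_sq_le F (2 * θ) (2 * β)
  have h3 : (F.card : ℝ) * (3 / 16) ≤
      ∑ x ∈ F, Real.cos (x * θ + β) - (1 / 2) * ∑ x ∈ F, Real.cos (x * (2 * θ) + 2 * β) := by
    rw [Finset.mul_sum, ← Finset.sum_sub_distrib, ← nsmul_eq_mul]
    refine Finset.card_nsmul_le_sum _ _ _ fun x hx => ?_
    have e : (x : ℝ) * (2 * θ) + 2 * β = 2 * (x * θ + β) := by ring
    rw [e, Real.cos_two_mul]
    have a1 := hc x hx
    have a2 := Real.cos_le_one (x * θ + β)
    nlinarith
  unfold Spread at h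
  have p1 := Sq_nonneg F θ
  have p2 := Sq_nonneg F (2 * θ)
  have hr : (0 : ℝ) ≤ F.card / 8 := by positivity
  have b1 : |∑ x ∈ F, Real.cos (x * θ + β)| < F.card / 8 :=
    abs_lt_of_sq_lt_sq (by linarith) hr
  have b2 : |∑ x ∈ F, Real.cos (x * (2 * θ) + 2 * β)| < F.card / 8 :=
    abs_lt_of_sq_lt_sq (by linarith) hr
  have := abs_lt.mp b1
  have := abs_lt.mp b2
  linarith

lemma int_cos_le (d a w : ℝ) (hw : 0 ≤ w) : ∫ θ in a..(a + w), Real.cos (d * θ) ≤ w := by
  have : ∫ θ in a..(a + w), Real.cos (d * θ) ≤ ∫ _ in a..(a + w), (1 : ℝ) :=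
    intervalIntegral.integral_mono_on (by linarith) (Continuous.intervalIntegrable (by fun_prop) _ _)
      (Continuous.intervalIntegrable (by fun_prop) _ _) fun _ _ => Real.cos_le_one _
  simpa using this

lemma int_cos_le' (d a w : ℝ) (hd : d ≠ 0) : ∫ θ in a..(a + w), Real.cos (d * θ) ≤ 2 / |d| := by
  rw [intervalIntegral.integral_comp_mul_left (fun x => Real.cos x) hd, integral_cos, smul_eq_mul]
  have h1 : |Real.sin (d * (a + w)) - Real.sin (d * a)| ≤ 2 := by
    have := Real.abs_sin_le_one (d * (a + w))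
    have := Real.abs_sin_le_one (d * a)
    have := abs_sub (Real.sin (d * (a + w))) (Real.sin (d * a))
    linarith
  refine (le_abs_self _).trans ?_
  rw [abs_mul, abs_inv, div_eq_inv_mul]
  exact mul_le_mul_of_nonneg_left h1 (by positivity)

lemma int_Sq_le (F : Finset ℕ) (c : ℝ) (hc : 1 ≤ c) (a w : ℝ) (hw : 0 ≤ w) (K : ℕ) (hK : 0 < K) :
    ∫ θ in a..(a + w), Sq F (c * θ) ≤ F.card * ((2 * K + 1) * w) + (F.card : ℝ) ^ 2 * (2 / K) := by
  unfold Sq
  have hK' : (0 : ℝ) < K := by exact_mod_cast hK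
  rw [intervalIntegral.integral_finsetSum fun x _ => Continuous.intervalIntegrable (by fun_prop) _ _]
  have : ∀ x ∈ F, ∫ θ in a..(a + w), ∑ y ∈ F, Real.cos (((x : ℝ) - y) * (c * θ))
      ≤ (2 * K + 1) * w + F.card * (2 / K) := by
    intro x _
    rw [intervalIntegral.integral_finsetSum fun y _ => Continuous.intervalIntegrable (by fun_prop) _ _]
    have h1 : ∀ y ∈ F, ∫ θ in a..(a + w), Real.cos (((x : ℝ) - y) * (c * θ))
        ≤ (if y ∈ Icc (x - K) (x + K) then w else 0) + 2 / K := by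
      intro y _
      simp only [← mul_assoc]
      split_ifs with h
      · have := int_cos_le (((x : ℝ) - y) * c) a w hw
        have : (0 : ℝ) ≤ 2 / K := by positivity
        linarith
      · have h2 : (K : ℝ) ≤ |(x : ℝ) - y| := by
          simp only [mem_Icc] at h
          rw [le_abs]
          rcases le_total x y with h3 | h3
          · right
            have : x + K ≤ y := by omega
            have : (x : ℝ) + K ≤ y := by exact_mod_cast this
            linarith
          · left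
            have : y + K ≤ x := by omega
            have : (y : ℝ) + K ≤ x := by exact_mod_cast this
            linarith
        have h3 : (K : ℝ) ≤ |((x : ℝ) - y) * c| := by
          rw [abs_mul, abs_of_nonneg (by linarith : 0 ≤ c)]
          nlinarith
        have h4 : ((x : ℝ) - y) * c ≠ 0 := by
          intro h0; rw [h0, abs_zero] at h3; linarith
        rw [zero_add]
        exact (int_cos_le' _ a w h4).trans (div_le_div_of_nonneg_left (by norm_num) hK' h3)
    refine (Finset.sum_le_sum h1).trans ?_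
    rw [Finset.sum_add_distrib, ← Finset.sum_filter, Finset.sum_const, Finset.sum_const,
      nsmul_eq_mul, nsmul_eq_mul]
    have h5 : (F.filter fun y => y ∈ Icc (x - K) (x + K)).card ≤ 2 * K + 1 := by
      refine (Finset.card_le_card (t := Icc (x - K) (x + K)) fun y hy =>
        (Finset.mem_filter.mp hy).2).trans ?_
      rw [Nat.card_Icc]; omega
    have h6 : ((F.filter fun y => y ∈ Icc (x - K) (x + K)).card : ℝ) ≤ 2 * K + 1 := by
      exact_mod_cast h5
    have := mul_le_mul_of_nonneg_right h6 hw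
    linarith
  refine (Finset.sum_le_sum this).trans (le_of_eq ?_)
  rw [Finset.sum_const, nsmul_eq_mul]; ring

theorem exists_slope {w ε : ℝ} (hw : 0 < w) (hε : 0 < ε) : ∃ r : ℕ, ∀ (a : ℝ)
    (T : Finset (Finset ℕ)) (p : Finset ℕ → ℝ), (∀ F ∈ T, r ≤ F.card) → (∀ F ∈ T, 0 ≤ p F) →
    ∑ F ∈ T, p F ≤ 1 → ∃ θ ∈ Set.Icc a (a + w), ∀ T' ⊆ T, (∀ F ∈ T', ¬ Spread F θ) →
      ∑ F ∈ T', p F ≤ ε := by
  obtain ⟨K, hK⟩ := exists_nat_gt (1024 / (ε * w))
  have hK0 : (0 : ℝ) < K := lt_trans (by positivity) hK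
  have hK1 : 0 < K := by exact_mod_cast hK0
  obtain ⟨r, hr⟩ := exists_nat_gt (512 * (2 * K + 1) / ε)
  have hr0 : (0 : ℝ) < r := lt_trans (by positivity) hr
  refine ⟨r, fun a T p hT hp hp1 => ?_⟩
  set Ψ : ℝ → ℝ := fun θ => ∑ F ∈ T, p F / (F.card : ℝ) ^ 2 * (Sq F (1 * θ) + Sq F (2 * θ)) with hΨ
  have hc : ∀ (F : Finset ℕ) (c : ℝ), Continuous fun θ => Sq F (c * θ) :=
    fun F c => (Sq_cont F).comp (by fun_prop)
  have hΨc : Continuous Ψ :=
    continuous_finsetSum _ fun F _ => continuous_const.mul ((hc F 1).add (hc F 2))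
  have hint : ∫ θ in a..(a + w), Ψ θ ≤ ε * w / 128 := by
    simp only [hΨ]
    rw [intervalIntegral.integral_finsetSum
      (f := fun F θ => p F / (F.card : ℝ) ^ 2 * (Sq F (1 * θ) + Sq F (2 * θ))) fun F _ =>
      (continuous_const.mul ((hc F 1).add (hc F 2))).intervalIntegrable _ _]
    have : ∀ F ∈ T, ∫ θ in a..(a + w), p F / (F.card : ℝ) ^ 2 * (Sq F (1 * θ) + Sq F (2 * θ))
        ≤ p F * (ε * w / 128) := by
      intro F hF
      rw [intervalIntegral.integral_const_mul, intervalIntegral.integral_add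
        ((hc F 1).intervalIntegrable _ _) ((hc F 2).intervalIntegrable _ _)]
      have h1 := int_Sq_le F 1 le_rfl a w hw.le K hK1
      have h2 := int_Sq_le F 2 (by norm_num) a w hw.le K hK1
      have hF1 : (r : ℝ) ≤ F.card := by exact_mod_cast hT F hF
      have hF0 : (0 : ℝ) < F.card := lt_of_lt_of_le hr0 hF1
      have h3 : (2 : ℝ) / K ≤ ε * w / 512 := by
        rw [div_lt_iff₀ (by positivity)] at hK
        rw [div_le_div_iff₀ hK0 (by norm_num)]
        nlinarith
      have h4 : (2 * (K : ℝ) + 1) ≤ ε / 512 * F.card := by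
        rw [div_lt_iff₀ hε] at hr
        nlinarith
      have h5 : (F.card : ℝ) * ((2 * K + 1) * w) + (F.card : ℝ) ^ 2 * (2 / K)
          ≤ (F.card : ℝ) ^ 2 * (ε * w / 256) := by
        have a1 := mul_le_mul_of_nonneg_left h3 (sq_nonneg (F.card : ℝ))
        have a2 := mul_le_mul_of_nonneg_left (mul_le_mul_of_nonneg_right h4 hw.le) hF0.le
        nlinarith
      calc _ ≤ p F / (F.card : ℝ) ^ 2 * ((F.card : ℝ) ^ 2 * (ε * w / 128)) :=
            mul_le_mul_of_nonneg_left (by linarith) (div_nonneg (hp F hF) (sq_nonneg _))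
        _ = _ := by field_simp
    refine (Finset.sum_le_sum this).trans ?_
    rw [← Finset.sum_mul]
    exact mul_le_of_le_one_left (by positivity) hp1
  have hex : ∃ θ ∈ Set.Icc a (a + w), Ψ θ ≤ ε / 64 := by
    by_contra hcon
    push Not at hcon
    have : ∫ _ in a..(a + w), (ε / 64) ≤ ∫ θ in a..(a + w), Ψ θ :=
      intervalIntegral.integral_mono_on (by linarith) (Continuous.intervalIntegrable (by fun_prop) _ _)
        (hΨc.intervalIntegrable _ _) fun θ hθ => (hcon θ hθ).le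
    simp only [intervalIntegral.integral_const, add_sub_cancel_left, smul_eq_mul] at this
    have : 0 < ε * w := by positivity
    linarith
  obtain ⟨θ, hθ, hΨθ⟩ := hex
  refine ⟨θ, hθ, fun T' hT' hns => ?_⟩
  have h1 : ∑ F ∈ T', p F / 64 ≤ Ψ θ := by
    refine le_trans (Finset.sum_le_sum fun F hF => ?_)
      (Finset.sum_le_sum_of_subset_of_nonneg hT' fun F hF _ =>
        mul_nonneg (div_nonneg (hp F hF) (sq_nonneg _)) (add_nonneg (Sq_nonneg _ _) (Sq_nonneg _ _)))
    have h2 := hns F hF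
    unfold Spread at h2
    push Not at h2
    have hF1 : (r : ℝ) ≤ F.card := by exact_mod_cast hT F (hT' hF)
    have hF0 : (0 : ℝ) < F.card := lt_of_lt_of_le hr0 hF1
    rw [one_mul]
    calc p F / 64 = p F / (F.card : ℝ) ^ 2 * ((F.card : ℝ) ^ 2 / 64) := by field_simp
      _ ≤ _ := mul_le_mul_of_nonneg_left h2 (div_nonneg (hp F (hT' hF)) (sq_nonneg _))
  rw [← Finset.sum_div] at h1
  linarith

end Pool.Agent.P.MP_6fabb2_lc
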