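import Mathlib

/-! The probability space of random choices and the one-coordinate slice bound. -/

namespace Pool.Agent.P.MP_6fabb2_lc

open MeasureTheory ProbabilityTheory
open scoped ENNReal

abbrev Om : Type := ℕ × ℕ → ℕ

noncomputable def nu (i : ℕ × ℕ) : Measure ℕ :=
  uniformOn ((Finset.range (4 ^ (i.1 + i.2)) : Finset ℕ) : Set ℕ)

instance nu_prob (i : ℕ × ℕ) : IsProbabilityMeasure (nu i) :=
  isProbabilityMeasure_uniformOn (Finset.finite_toSet _) ⟨0, by simp⟩

noncomputable def PP : Measure Om := Measure.infinitePi nu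

instance PP_prob : IsProbabilityMeasure PP := by unfold PP; infer_instance

lemma resample (i : ℕ × ℕ) :
    (PP.prod (nu i)).map (fun p : Om × ℕ => Function.update p.1 i p.2) = PP := by
  classical
  refine Measure.eq_infinitePi nu fun s t ht => ?_
  rw [Measure.map_apply measurable_update' (MeasurableSet.pi s.countable_toSet fun j _ => ht j)]
  have e : (fun p : Om × ℕ => Function.update p.1 i p.2) ⁻¹' (Set.pi s t)
      = (Set.pi (s.erase i) t) ×ˢ (if i ∈ s then t i else Set.univ) := by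
    ext ⟨X, y⟩
    simp only [Set.mem_preimage, Set.mem_pi, Finset.mem_coe, Set.mem_prod, Finset.mem_erase]
    constructor
    · intro h
      refine ⟨fun j hj => ?_, ?_⟩
      · have := h j hj.2
        rwa [Function.update_of_ne hj.1] at this
      · split_ifs with hi
        · simpa using h i hi
        · trivial
    · rintro ⟨h1, h2⟩ j hj
      by_cases hji : j = i
      · subst hji
        rw [if_pos hj] at h2
        simpa using h2
      · rw [Function.update_of_ne hji]; exact h1 j ⟨hji, hj⟩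
  rw [e, Measure.prod_prod, PP, Measure.infinitePi_pi _ fun j _ => ht j]
  split_ifs with hi
  · exact Finset.prod_erase_mul s (fun j => nu j (t j)) hi
  · rw [Finset.erase_eq_of_notMem hi, measure_univ, mul_one]

lemma slice {E : Set Om} (hE : MeasurableSet E) (i : ℕ × ℕ) {ε : ℝ≥0∞}
    (h : ∀ X, nu i {y | Function.update X i y ∈ E} ≤ ε) : PP E ≤ ε := by
  classical
  rw [← resample i, Measure.map_apply measurable_update' hE,
    Measure.prod_apply (measurable_update' hE)]
  calc _ ≤ ∫⁻ _, ε ∂PP := lintegral_mono fun X => h X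
    _ = ε := by simp

lemma nu_le (i : ℕ × ℕ) {S : Set ℕ} {s : ℕ} (h : ∀ B : Finset ℕ, (∀ y ∈ B, y ∈ S) → B.card ≤ s)
    (hs : s ≤ 2 ^ (i.1 + i.2)) : nu i S ≤ 2⁻¹ ^ (i.1 + i.2) := by
  classical
  unfold nu
  set N := i.1 + i.2
  rw [← uniformOn_inter_self (Finset.finite_toSet _)]
  have e : ((Finset.range (4 ^ N) : Finset ℕ) : Set ℕ) ∩ S
      = (((Finset.range (4 ^ N)).filter (· ∈ S) : Finset ℕ) : Set ℕ) := by
    ext y; simp
  rw [e, uniformOn_apply_finset, Finset.card_range]
  have h1 : (Finset.range (4 ^ N) ∩ (Finset.range (4 ^ N)).filter (· ∈ S)).card ≤ 2 ^ N :=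
    (h _ fun y hy => (Finset.mem_filter.mp (Finset.mem_inter.mp hy).2).2).trans hs
  have h2 : (((Finset.range (4 ^ N) ∩ (Finset.range (4 ^ N)).filter (· ∈ S)).card : ℕ) : ℝ≥0∞)
      ≤ 2 ^ N := by exact_mod_cast h1
  refine (ENNReal.div_le_div_right h2 _).trans (le_of_eq ?_)
  have e2 : ((4 ^ N : ℕ) : ℝ≥0∞) = 2 ^ N * 2 ^ N := by
    rw [← mul_pow]; norm_num
  rw [e2, ← ENNReal.inv_pow, div_eq_mul_inv, ENNReal.mul_inv (Or.inl (by simp)) (Or.inl (by simp)),
    ← mul_assoc, ENNReal.mul_inv_cancel (by simp) (by simp), one_mul]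

lemma meas_of_fin_dep (P : Om → Prop) (u : ℕ)
    (h : ∀ X X' : Om, (∀ j < u, ∀ s < u, X' (j, s) = X (j, s)) → P X → P X') : Measurable P := by
  classical
  let res : Om → (Fin u × Fin u → ℕ) := fun X p => X (p.1, p.2)
  let ext : (Fin u × Fin u → ℕ) → Om := fun z p =>
    if hp : p.1 < u ∧ p.2 < u then z (⟨p.1, hp.1⟩, ⟨p.2, hp.2⟩) else 0
  have e : P = (fun z => P (ext z)) ∘ res := by
    funext X
    have h1 : ∀ j < u, ∀ s < u, ext (res X) (j, s) = X (j, s) := by
      intro j hj s hs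
      simp only [ext, res, dif_pos (And.intro hj hs)]
    exact propext ⟨h _ _ h1, h _ _ fun j hj s hs => (h1 j hj s hs).symm⟩
  rw [e]
  exact (measurable_of_countable _).comp (measurable_pi_lambda _ fun p => measurable_pi_apply _)

lemma null_of_le {E : Set Om} (h : ∀ j0 : ℕ, ∃ j, j0 ≤ j ∧ PP E ≤ 2⁻¹ ^ j * 2) : PP E = 0 := by
  have h1 : Filter.Tendsto (fun j : ℕ => (2⁻¹ : ℝ≥0∞) ^ j * 2) Filter.atTop (nhds 0) := by
    have := ENNReal.Tendsto.mul_const (b := 2)
      (ENNReal.tendsto_pow_atTop_nhds_zero_of_lt_one (r := 2⁻¹) (by simp)) (Or.inr (by simp))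
    simpa using this
  refine le_antisymm (ge_of_tendsto' h1 fun j0 => ?_) (zero_le)
  obtain ⟨j, hj, h2⟩ := h j0
  refine h2.trans (mul_le_mul_left (pow_le_pow_right_of_le_one' (by simp) hj) _)

end Pool.Agent.P.MP_6fabb2_lc
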