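import Pool.Agent.P.MP_6fabb2_lc.Defs
import Pool.Agent.P.MP_6fabb2_lc.Equi
import Pool.Agent.P.MP_6fabb2_lc.Prob

/-! Construction of a colouring which no positive measure set of oracles can solve. -/

namespace Pool.Agent.P.MP_6fabb2_lc

open MeasureTheory Finset
open scoped ENNReal

abbrev OO : Type := (ℕ → ℝ) × Om

def Ag (u : ℕ) (o o' : OO) : Prop :=
  (∀ i < u, o'.1 i = o.1 i) ∧ ∀ j < u, ∀ s < u, o'.2 (j, s) = o.2 (j, s)

lemma Ag.refl (u : ℕ) (o : OO) : Ag u o o := ⟨fun _ _ => rfl, fun _ _ _ _ => rfl⟩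

lemma Ag.symm {u : ℕ} {o o' : OO} (h : Ag u o o') : Ag u o' o :=
  ⟨fun i hi => (h.1 i hi).symm, fun j hj s hs => (h.2 j hj s hs).symm⟩

lemma Ag.trans {u : ℕ} {o o' o'' : OO} (h : Ag u o o') (h' : Ag u o' o'') : Ag u o o'' :=
  ⟨fun i hi => (h'.1 i hi).trans (h.1 i hi), fun j hj s hs => (h'.2 j hj s hs).trans (h.2 j hj s hs)⟩

lemma Ag.mono {u v : ℕ} {o o' : OO} (h : Ag v o o') (huv : u ≤ v) : Ag u o o' :=
  ⟨fun i hi => h.1 i (by omega), fun j hj s hs => h.2 j (by omega) s (by omega)⟩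

open Classical in
/-- elements confirmed with use `u` -/
noncomputable def Gc (D : Set OO) (f : OO → Set ℕ) (u : ℕ) (o : OO) : Finset ℕ :=
  (range u).filter fun m => ∀ o' ∈ D, Ag u o o' → m ∈ f o'

lemma mem_Gc {D : Set OO} {f : OO → Set ℕ} {u : ℕ} {o : OO} {m : ℕ} :
    m ∈ Gc D f u o ↔ m < u ∧ ∀ o' ∈ D, Ag u o o' → m ∈ f o' := by
  simp [Gc]

lemma Gc_congr {D : Set OO} {f : OO → Set ℕ} {u : ℕ} {o o' : OO} (h : Ag u o o') :
    Gc D f u o = Gc D f u o' := by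
  ext m
  simp only [mem_Gc]
  exact ⟨fun h1 => ⟨h1.1, fun o'' ho h2 => h1.2 o'' ho (h.trans h2)⟩,
    fun h1 => ⟨h1.1, fun o'' ho h2 => h1.2 o'' ho (h.symm.trans h2)⟩⟩

lemma Gc_mono {D : Set OO} {f : OO → Set ℕ} {u v : ℕ} (huv : u ≤ v) (o : OO) :
    Gc D f u o ⊆ Gc D f v o := by
  intro m hm
  rw [mem_Gc] at hm ⊢
  exact ⟨by omega, fun o' ho h => hm.2 o' ho (h.mono huv)⟩

lemma meas_Gc (D : Set OO) (f : OO → Set ℕ) (u : ℕ) (θ : ℕ → ℝ) (P : Finset ℕ → Prop) :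
    Measurable fun X : Om => P (Gc D f u (θ, X)) :=
  meas_of_fin_dep _ u fun X X' h hP => by
    rwa [← Gc_congr (o := (θ, X)) (o' := (θ, X')) ⟨fun _ _ => rfl, h⟩]

/-- positive information has finite use -/
def PosStable (D : Set OO) (f : OO → Set ℕ) : Prop :=
  ∀ o ∈ D, ∀ m ∈ f o, ∃ u, ∀ o' ∈ D, Ag u o o' → m ∈ f o'

lemma PosStable.exists_mem {D : Set OO} {f : OO → Set ℕ} (h : PosStable D f) {o : OO} (ho : o ∈ D)
    {m : ℕ} (hm : m ∈ f o) : ∃ u, m ∈ Gc D f u o := by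
  obtain ⟨u, hu⟩ := h o ho m hm
  exact ⟨u + m + 1, mem_Gc.mpr ⟨by omega, fun o' ho' h => hu o' ho' (h.mono (by omega))⟩⟩

lemma PosStable.exists_card {D : Set OO} {f : OO → Set ℕ} (h : PosStable D f) {o : OO} (ho : o ∈ D)
    (hinf : ∀ n, ∃ m ∈ f o, n < m) (r : ℕ) : ∃ u, r ≤ (Gc D f u o).card := by
  induction r with
  | zero => exact ⟨0, Nat.zero_le _⟩
  | succ r ih =>
    obtain ⟨u, hu⟩ := ih
    obtain ⟨m, hm, hum⟩ := hinf u
    obtain ⟨v, hv⟩ := h.exists_mem ho hm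
    refine ⟨u + v, Nat.succ_le_of_lt (lt_of_le_of_lt hu (Finset.card_lt_card
      ⟨Gc_mono (by omega) o, fun hc => ?_⟩))⟩
    have := (mem_Gc.mp (hc (Gc_mono (by omega) o hv))).1
    omega

/-- the phase -/
noncomputable def ph (θ : ℕ → ℝ) (n : ℕ) : ℝ := ∑ i ∈ range n, θ i

open Classical in
/-- the graph of the colouring attached to a sequence of slopes -/
def Col (θ : ℕ → ℝ) : Set ℕ :=
  {p | ∃ x, p = spair x (if 0 ≤ Real.cos (ph θ x) then 1 else 0)}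

def Sol (F H : Set ℕ) : Prop :=
  (∀ n, ∃ m ∈ H, n < m) ∧ ∃ z, ∀ x ∈ H, ∀ y ∈ H, x < y → spair (x + y) z ∈ F

lemma spair_inj {x y x' y' : ℕ} (h : spair x y = spair x' y') : x = x' ∧ y = y' := by
  unfold spair at h
  have h1 : x + y = x' + y' := by
    rcases lt_trichotomy (x + y) (x' + y') with h2 | h2 | h2
    · have : (x + y + 1) * (x + y + 1) ≤ (x' + y') * (x' + y') := Nat.mul_le_mul h2 h2
      nlinarith
    · exact h2
    · have : (x' + y' + 1) * (x' + y' + 1) ≤ (x + y) * (x + y) := Nat.mul_le_mul h2 h2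
      nlinarith
  rw [h1] at h
  omega

open Classical in
lemma mem_Col {θ : ℕ → ℝ} {x z : ℕ} :
    spair x z ∈ Col θ ↔ z = if 0 ≤ Real.cos (ph θ x) then 1 else 0 := by
  constructor
  · rintro ⟨x', h⟩
    obtain ⟨rfl, h2⟩ := spair_inj h
    exact h2
  · rintro rfl; exact ⟨x, rfl⟩

structure Cond where
  n : ℕ
  τ : ℕ → ℝ
  a : ℝ
  w : ℝ
  hw : 0 < w

def Cond.mem (p : Cond) (θ : ℕ → ℝ) : Prop :=
  ∀ i, (i < p.n → θ i = p.τ i) ∧ (p.n ≤ i → θ i ∈ Set.Icc p.a (p.a + p.w))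

lemma Cond.nonempty (p : Cond) : ∃ θ, p.mem θ := by
  refine ⟨fun i => if i < p.n then p.τ i else p.a, fun i => ⟨fun h => if_pos h, fun h => ?_⟩⟩
  simp only [if_neg (not_lt.mpr h)]
  exact ⟨le_rfl, by linarith [p.hw]⟩

lemma not_sol {θ : ℕ → ℝ} {u : ℕ} {θ0 w : ℝ} (hw : 0 ≤ w) (hwu : w * u ≤ 1 / 4)
    (hθ : ∀ i, u ≤ i → θ i ∈ Set.Icc θ0 (θ0 + w)) {F : Finset ℕ} (hF : ∀ x ∈ F, x < u)
    (hs : Spread F θ0) {H : Set ℕ} (hFH : ∀ x ∈ F, x ∈ H) : ¬ Sol (Col θ) H := by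
  rintro ⟨hinf, z, hz⟩
  obtain ⟨y, hy, huy⟩ := hinf u
  have key : ∀ x ∈ F, |Real.cos (ph θ (x + y)) - Real.cos (x * θ0 + ph θ y)| ≤ 1 / 4 := by
    intro x hx
    refine (Real.abs_cos_sub_cos_le _ _).trans ?_
    have e : ph θ (x + y) = ph θ y + ∑ i ∈ range x, θ (y + i) := by
      unfold ph; rw [add_comm x y, Finset.sum_range_add]
    have h1 : (x : ℝ) * θ0 ≤ ∑ i ∈ range x, θ (y + i) := by
      have := Finset.card_nsmul_le_sum (range x) (fun i => θ (y + i)) θ0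
        fun i _ => (hθ _ (by omega)).1
      simpa using this
    have h2 : ∑ i ∈ range x, θ (y + i) ≤ (x : ℝ) * (θ0 + w) := by
      have := Finset.sum_le_card_nsmul (range x) (fun i => θ (y + i)) (θ0 + w)
        fun i _ => (hθ _ (by omega)).2
      rwa [Finset.card_range, nsmul_eq_mul] at this
    have h3 : (x : ℝ) ≤ u := by exact_mod_cast (hF x hx).le
    have h4 : (x : ℝ) * w ≤ u * w := mul_le_mul_of_nonneg_right h3 hw
    rw [e, abs_le]
    constructor <;> nlinarith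
  obtain ⟨x, hx, h1⟩ := hs.exists_neg (ph θ y)
  obtain ⟨x', hx', h2⟩ := hs.exists_neg (ph θ y + Real.pi)
  rw [← add_assoc, Real.cos_add_pi] at h2
  have k1 := abs_le.mp (key x hx)
  have k2 := abs_le.mp (key x' hx')
  have z1 := mem_Col.mp (hz x (hFH x hx) y hy (by have := hF x hx; omega))
  have z2 := mem_Col.mp (hz x' (hFH x' hx') y hy (by have := hF x' hx'; omega))
  rw [if_neg (by linarith)] at z1
  rw [if_pos (by linarith)] at z2
  omega

theorem step (p : Cond) {D : Set OO} {f : OO → Set ℕ} (hst : PosStable D f) {δ : ℝ} (hδ : 0 < δ) :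
    ∃ q : Cond, p.n < q.n ∧ (∀ θ, q.mem θ → p.mem θ) ∧
      ∀ θ, q.mem θ → PP.real {X | (θ, X) ∈ D ∧ Sol (Col θ) (f (θ, X))} ≤ δ := by
  classical
  obtain ⟨r, hr⟩ := exists_slope (w := p.w / 2) (ε := δ / 2) (by linarith [p.hw]) (by linarith)
  set V : (ℕ → ℝ) → ℕ → Set Om := fun θ u => {X | r ≤ (Gc D f u (θ, X)).card} with hV
  have hVm : ∀ θ u, MeasurableSet (V θ u) := fun θ u =>
    (meas_Gc D f u θ fun G => r ≤ G.card).setOf
  have hVmono : ∀ θ, Monotone (V θ) := fun θ u v huv X hX =>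
    le_trans hX (Finset.card_le_card (Gc_mono huv _))
  set SS : Set ℝ := {x | ∃ θ u, p.mem θ ∧ x = PP.real (V θ u)} with hSS
  have hne : SS.Nonempty := by
    obtain ⟨θ, hθ⟩ := p.nonempty
    exact ⟨_, θ, 0, hθ, rfl⟩
  have hbdd : BddAbove SS := ⟨1, by rintro _ ⟨θ, u, _, rfl⟩; exact measureReal_le_one⟩
  obtain ⟨_, ⟨θs, u0, hθs, rfl⟩, hlt⟩ := exists_lt_of_lt_csSup hne
    (show sSup SS - δ / 2 < sSup SS by linarith)
  set u := u0 + p.n + 1 with hu
  have hlt' : sSup SS - δ / 2 < PP.real (V θs u) :=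
    hlt.trans_le (measureReal_mono (hVmono θs (by omega)))
  set T := (range u).powerset.filter (fun F => r ≤ F.card) with hT
  set W : Finset ℕ → Set Om := fun F => {X | Gc D f u (θs, X) = F} with hW
  have hWm : ∀ F, MeasurableSet (W F) := fun F => (meas_Gc D f u θs fun G => G = F).setOf
  have hsum : ∑ F ∈ T, PP.real (W F) ≤ 1 := by
    rw [← measureReal_biUnion_finset (fun F _ F' _ hne => Set.disjoint_left.mpr
      fun X h1 h2 => hne (h1.symm.trans h2)) fun F _ => hWm F]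
    exact measureReal_le_one
  obtain ⟨θ0, hθ0, hgood⟩ := hr p.a T (fun F => PP.real (W F))
    (fun F hF => (Finset.mem_filter.mp hF).2) (fun _ _ => measureReal_nonneg) hsum
  have hu0 : (0 : ℝ) < u := by exact_mod_cast (by omega : 0 < u)
  set w' : ℝ := min (p.w / 2) (1 / 4 / u) with hw'
  have hw'0 : 0 < w' := lt_min (by linarith [p.hw]) (by positivity)
  have hw'1 : w' ≤ p.w / 2 := min_le_left _ _
  have hw'2 : w' * u ≤ 1 / 4 := by
    have : w' ≤ 1 / 4 / u := min_le_right _ _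
    rwa [le_div_iff₀ hu0] at this
  have hsub : ∀ θ, (⟨u, θs, θ0, w', hw'0⟩ : Cond).mem θ → p.mem θ := by
    intro θ hθ i
    by_cases hi : i < u
    · rw [(hθ i).1 hi]; exact hθs i
    · have := (hθ i).2 (not_lt.mp hi)
      refine ⟨fun h => absurd h (by omega), fun _ => ⟨hθ0.1.trans this.1, this.2.trans ?_⟩⟩
      have := hθ0.2
      simp only
      linarith
  refine ⟨⟨u, θs, θ0, w', hw'0⟩, by simp only; omega, hsub, fun θ hθ => ?_⟩
  have hag : ∀ X : Om, Gc D f u (θ, X) = Gc D f u (θs, X) := fun X =>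
    (Gc_congr (o := (θs, X)) (o' := (θ, X)) ⟨fun i hi => (hθ i).1 hi, fun _ _ _ _ => rfl⟩).symm
  set T' := T.filter (fun F => ¬ Spread F θ0) with hT'
  have hcover : {X | (θ, X) ∈ D ∧ Sol (Col θ) (f (θ, X))}
      ⊆ ((⋃ v, V θ v) \ V θ u) ∪ ⋃ F ∈ T', W F := by
    rintro X ⟨hD, hsol⟩
    by_cases hX : X ∈ V θ u
    · right
      refine Set.mem_biUnion (x := Gc D f u (θ, X)) ?_ (hag X).symm
      simp only [hT', hT, Finset.coe_filter, Finset.mem_filter, Finset.mem_powerset,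
        Set.mem_ofPred_eq]
      refine ⟨⟨fun m hm => mem_range.mpr (mem_Gc.mp hm).1, hX⟩, fun hs => ?_⟩
      exact not_sol hw'0.le hw'2 (fun i hi => (hθ i).2 hi) (fun x hx => (mem_Gc.mp hx).1) hs
        (fun x hx => (mem_Gc.mp hx).2 _ hD (Ag.refl _ _)) hsol
    · left
      obtain ⟨v, hv⟩ := hst.exists_card hD hsol.1 r
      exact ⟨Set.mem_iUnion.mpr ⟨v, hv⟩, hX⟩
  have h1 : PP.real (⋃ v, V θ v) ≤ sSup SS := by
    have h2 := tendsto_measure_iUnion_atTop (μ := PP) (hVmono θ)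
    have h3 := (ENNReal.tendsto_toReal (measure_ne_top PP _)).comp h2
    exact le_of_tendsto' h3 fun v => le_csSup hbdd ⟨θ, v, hsub θ hθ, rfl⟩
  have h2 : V θ u = V θs u := by ext X; simp only [hV, Set.mem_ofPred_eq, hag]
  have h3 : PP.real ((⋃ v, V θ v) \ V θ u) ≤ δ / 2 := by
    rw [measureReal_sdiff (Set.subset_iUnion _ u) (hVm θ u), h2]
    linarith
  have h4 : PP.real (⋃ F ∈ T', W F) ≤ δ / 2 :=
    (measureReal_biUnion_finset_le _ _).trans
      (hgood T' (Finset.filter_subset _ _) fun F hF => (Finset.mem_filter.mp hF).2)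
  calc _ ≤ _ := measureReal_mono hcover
    _ ≤ _ := measureReal_union_le _ _
    _ ≤ δ := by linarith

theorem exists_generic {ι : Type} [Countable ι] [Nonempty ι] (D : ι → Set OO) (f : ι → OO → Set ℕ)
    (hst : ∀ t, PosStable (D t) (f t)) :
    ∃ θ, ∀ t, PP {X | (θ, X) ∈ D t ∧ Sol (Col θ) (f t (θ, X))} = 0 := by
  obtain ⟨e, he⟩ := exists_surjective_nat (ι × ℕ)
  choose nx h1 h2 h3 using fun (k : ℕ) (p : Cond) =>
    step p (hst (e k).1) (Nat.one_div_pos_of_nat (α := ℝ) (n := (e k).2))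
  let sq : ℕ → Cond := fun k => Nat.rec ⟨0, fun _ => 0, 0, 1, one_pos⟩ (fun k p => nx k p) k
  have hsq : ∀ k, sq (k + 1) = nx k (sq k) := fun k => rfl
  have hn : ∀ k, k ≤ (sq k).n := by
    intro k
    induction k with
    | zero => exact Nat.zero_le _
    | succ k ih => have := h1 k (sq k); rw [hsq]; omega
  have hdec : ∀ k d θ, (sq (k + d)).mem θ → (sq k).mem θ := by
    intro k d
    induction d with
    | zero => exact fun _ h => h
    | succ d ih => exact fun θ h => ih θ (h2 _ _ θ h)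
  have hmem : ∀ k, (sq k).mem fun i => (sq (i + 1)).τ i := by
    intro k i
    obtain ⟨ζ, hζ⟩ := (sq (k + (i + 1))).nonempty
    have a1 := hdec k (i + 1) ζ hζ
    rw [add_comm] at hζ
    have a2 := hdec (i + 1) k ζ hζ
    have a3 : ζ i = (sq (i + 1)).τ i := (a2 i).1 (hn (i + 1))
    simp only [← a3]
    exact a1 i
  refine ⟨fun i => (sq (i + 1)).τ i, fun t => ?_⟩
  rw [← measureReal_eq_zero_iff]
  refine le_antisymm (ge_of_tendsto' tendsto_one_div_add_atTop_nhds_zero_nat fun m => ?_)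
    measureReal_nonneg
  obtain ⟨k, hk⟩ := he (t, m)
  have := h3 k (sq k) _ (hmem (k + 1))
  rw [hk] at this
  exact this

end Pool.Agent.P.MP_6fabb2_lc
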