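import Pool.Agent.P.MP_6fabb2_lc.Solver
import Pool.Agent.P.MP_6fabb2_lc.Force

/-! The model. -/

namespace Pool.Agent.P.MP_6fabb2_lc

open MeasureTheory Filter

deriving instance Countable for Tm
deriving instance Countable for Bf

section unfold
variable {M : Type} [Zero M] [One M] [Add M] [Mul M] [LT M] (σ : ℕ → Set M) (ρ : ℕ → M)

lemma holds_eq (s t : Tm) : Holds σ (.feq s t) ρ ↔ tval ρ s = tval ρ t := Iff.rfl
lemma holds_lt (s t : Tm) : Holds σ (.flt s t) ρ ↔ tval ρ s < tval ρ t := Iff.rfl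
lemma holds_mem (t : Tm) (k : ℕ) : Holds σ (.fmem t k) ρ ↔ tval ρ t ∈ σ k := Iff.rfl
lemma holds_not (φ : Bf) : Holds σ (.fnot φ) ρ ↔ ¬ Holds σ φ ρ := Iff.rfl
lemma holds_and (φ ψ : Bf) : Holds σ (.fand φ ψ) ρ ↔ Holds σ φ ρ ∧ Holds σ ψ ρ := Iff.rfl
lemma holds_ball (i : ℕ) (t : Tm) (φ : Bf) : Holds σ (.fball i t φ) ρ ↔
    ∀ a : M, a < tval ρ t → Holds σ φ (Function.update ρ i a) := Iff.rfl
end unfold

lemma tval_dep (t : Tm) : ∃ b, ∀ ρ ρ' : ℕ → ℕ, (∀ k < b, ρ k = ρ' k) → tval ρ t = tval ρ' t := by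
  induction t with
  | nvar i => exact ⟨i + 1, fun ρ ρ' h => h i (by omega)⟩
  | tzero => exact ⟨0, fun _ _ _ => rfl⟩
  | tone => exact ⟨0, fun _ _ _ => rfl⟩
  | tadd s t hs ht =>
    obtain ⟨a, ha⟩ := hs
    obtain ⟨b, hb⟩ := ht
    refine ⟨a + b, fun ρ ρ' h => ?_⟩
    change tval ρ s + tval ρ t = tval ρ' s + tval ρ' t
    rw [ha ρ ρ' fun k hk => h k (by omega), hb ρ ρ' fun k hk => h k (by omega)]
  | tmul s t hs ht =>
    obtain ⟨a, ha⟩ := hs
    obtain ⟨b, hb⟩ := ht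
    refine ⟨a + b, fun ρ ρ' h => ?_⟩
    change tval ρ s * tval ρ t = tval ρ' s * tval ρ' t
    rw [ha ρ ρ' fun k hk => h k (by omega), hb ρ ρ' fun k hk => h k (by omega)]

lemma update_agree {b : ℕ} {ρ ρ' : ℕ → ℕ} (h : ∀ k < b, ρ k = ρ' k) (i a : ℕ) :
    ∀ k < b, Function.update ρ i a k = Function.update ρ' i a k := by
  intro k hk
  by_cases hki : k = i
  · subst hki; simp
  · rw [Function.update_of_ne hki, Function.update_of_ne hki, h k hk]

lemma holds_dep (φ : Bf) : ∃ b, ∀ (σ σ' : ℕ → Set ℕ) (ρ ρ' : ℕ → ℕ), (∀ k < b, σ k = σ' k) →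
    (∀ k < b, ρ k = ρ' k) → (Holds σ φ ρ ↔ Holds σ' φ ρ') := by
  induction φ with
  | feq s t =>
    obtain ⟨a, ha⟩ := tval_dep s
    obtain ⟨b, hb⟩ := tval_dep t
    refine ⟨a + b, fun σ σ' ρ ρ' _ h => ?_⟩
    rw [holds_eq, holds_eq, ha ρ ρ' fun k hk => h k (by omega), hb ρ ρ' fun k hk => h k (by omega)]
  | flt s t =>
    obtain ⟨a, ha⟩ := tval_dep s
    obtain ⟨b, hb⟩ := tval_dep t
    refine ⟨a + b, fun σ σ' ρ ρ' _ h => ?_⟩
    rw [holds_lt, holds_lt, ha ρ ρ' fun k hk => h k (by omega), hb ρ ρ' fun k hk => h k (by omega)]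
  | fmem t i =>
    obtain ⟨a, ha⟩ := tval_dep t
    refine ⟨a + i + 1, fun σ σ' ρ ρ' h' h => ?_⟩
    rw [holds_mem, holds_mem, ha ρ ρ' fun k hk => h k (by omega), h' i (by omega)]
  | fnot φ ih =>
    obtain ⟨a, ha⟩ := ih
    exact ⟨a, fun σ σ' ρ ρ' h' h => not_congr (ha σ σ' ρ ρ' h' h)⟩
  | fand φ ψ h1 h2 =>
    obtain ⟨a, ha⟩ := h1
    obtain ⟨b, hb⟩ := h2
    exact ⟨a + b, fun σ σ' ρ ρ' h' h => and_congr
      (ha σ σ' ρ ρ' (fun k hk => h' k (by omega)) fun k hk => h k (by omega))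
      (hb σ σ' ρ ρ' (fun k hk => h' k (by omega)) fun k hk => h k (by omega))⟩
  | fball i t φ ih =>
    obtain ⟨a, ha⟩ := tval_dep t
    obtain ⟨b, hb⟩ := ih
    refine ⟨a + b, fun σ σ' ρ ρ' h' h => ?_⟩
    rw [holds_ball, holds_ball, ha ρ ρ' fun k hk => h k (by omega)]
    exact forall_congr' fun x => imp_congr_right fun _ => hb _ _ _ _ (fun k hk => h' k (by omega))
      (update_agree (fun k hk => h k (by omega)) i x)

lemma holds_stable {α : Type} {l : Filter α} {g : α → ℕ → Set ℕ} {g0 : ℕ → Set ℕ}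
    (hg : ∀ k n, ∀ᶠ o in l, n ∈ g o k ↔ n ∈ g0 k) (φ : Bf) :
    ∀ ρ : ℕ → ℕ, ∀ᶠ o in l, Holds (g o) φ ρ ↔ Holds g0 φ ρ := by
  induction φ with
  | feq s t => exact fun ρ => Eventually.of_forall fun _ => Iff.rfl
  | flt s t => exact fun ρ => Eventually.of_forall fun _ => Iff.rfl
  | fmem t i => exact fun ρ => hg i _
  | fnot φ ih => exact fun ρ => (ih ρ).mono fun _ h => not_congr h
  | fand φ ψ h1 h2 => exact fun ρ => ((h1 ρ).and (h2 ρ)).mono fun _ h => and_congr h.1 h.2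
  | fball i t φ ih =>
    intro ρ
    have h : ∀ᶠ o in l, ∀ a ∈ Finset.range (tval ρ t),
        (Holds (g o) φ (Function.update ρ i a) ↔ Holds g0 φ (Function.update ρ i a)) := by
      simp only [Filter.eventually_all_finset]
      exact fun a _ => ih _
    filter_upwards [h] with o ho
    exact forall_congr' fun a => imp_congr_right fun ha => ho a (Finset.mem_range.mpr ha)

/-- names for the members of the model -/
inductive Nm : Type
  | base : Nm
  | ca : Bf → Bf → ℕ → ℕ → ℕ → List ℕ → Nm → Nm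
  | put : ℕ → Nm → Nm → Nm
  | rrt : ℕ → Nm → Nm

deriving instance Countable for Nm

instance : Nonempty Nm := ⟨.base⟩

def rl (l : List ℕ) : ℕ → ℕ := fun k => l.getD k 0

noncomputable def ev : Nm → OO → ℕ → Set ℕ
  | .base, o => fun _ => Col o.1
  | .ca θ _ i j _ l t, o => fun _ =>
      {n | ∃ m, Holds (ev t o) θ (Function.update (Function.update (rl l) i n) j m)}
  | .put k t1 t2, o => Function.update (ev t1 o) k (ev t2 o 0)
  | .rrt j t, o => fun _ => Out (ev t o 0) (fun s => o.2 (j, s))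

def dom : Nm → OO → Prop
  | .base, _ => True
  | .ca θ η i j j' l t, o => dom t o ∧
      ∀ n, (∃ m, Holds (ev t o) θ (Function.update (Function.update (rl l) i n) j m)) ↔
        ∀ m, Holds (ev t o) η (Function.update (Function.update (rl l) i n) j' m)
  | .put _ t1 t2, o => dom t1 o ∧ dom t2 o
  | .rrt j t, o => dom t o ∧ Valid (ev t o 0) ∧ ∀ s, ∃ A, Run (ev t o 0) (fun s => o.2 (j, s)) s A

def cb : Nm → ℕ
  | .base => 0
  | .ca _ _ _ _ _ _ t => cb t
  | .put _ t1 t2 => cb t1 + cb t2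
  | .rrt j t => cb t + j + 1

lemma ev_inv (t : Nm) (o o' : OO) (h1 : o.1 = o'.1) :
    (∀ j < cb t, ∀ s, o.2 (j, s) = o'.2 (j, s)) → ev t o = ev t o' ∧ (dom t o ↔ dom t o') := by
  induction t with
  | base => intro _; simp only [ev, dom, h1, and_self]
  | ca θ η i j j' l t ih =>
    intro h
    obtain ⟨a, b⟩ := ih h
    simp only [ev, dom, a, b, and_self]
  | put k t1 t2 i1 i2 =>
    intro h
    obtain ⟨a, b⟩ := i1 fun j hj => h j (by simp only [cb]; omega)
    obtain ⟨c, d⟩ := i2 fun j hj => h j (by simp only [cb]; omega)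
    simp only [ev, dom, a, b, c, d, and_self]
  | rrt j t ih =>
    intro h
    obtain ⟨a, b⟩ := ih fun j hj => h j (by simp only [cb]; omega)
    have c : (fun s => o.2 (j, s)) = fun s => o'.2 (j, s) :=
      funext fun s => h j (by simp only [cb]; omega) s
    simp only [ev, dom, a, b, c, and_self]

/-- neighbourhood filter inside `D` -/
def nb (D : Set OO) (o : OO) : Filter OO where
  sets := {S | ∃ u, ∀ o' ∈ D, Ag u o o' → o' ∈ S}
  univ_sets := ⟨0, fun _ _ _ => trivial⟩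
  sets_of_superset := fun ⟨u, hu⟩ h => ⟨u, fun o' ho ha => h (hu o' ho ha)⟩
  inter_sets := fun ⟨u, hu⟩ ⟨v, hv⟩ => ⟨u + v, fun o' ho ha =>
    ⟨hu o' ho (ha.mono (by omega)), hv o' ho (ha.mono (by omega))⟩⟩

lemma ev_nb {D : Set OO} {o : OO} {P : OO → Prop} :
    (∀ᶠ o' in nb D o, P o') ↔ ∃ u, ∀ o' ∈ D, Ag u o o' → P o' := Iff.rfl

lemma le_spair (x z : ℕ) : x ≤ spair x z := by unfold spair; omega

theorem ev_stable (t : Nm) (D : Set OO) (o : OO) (ho : o ∈ D) : (∀ o ∈ D, dom t o) →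
    ∀ k n, ∀ᶠ o' in nb D o, n ∈ ev t o' k ↔ n ∈ ev t o k := by
  have hD : ∀ᶠ o' in nb D o, o' ∈ D := ev_nb.2 ⟨0, fun _ h _ => h⟩
  induction t with
  | base =>
    intro _ k n
    refine ev_nb.2 ⟨n, fun o' _ ha => ?_⟩
    have key : ∀ x ≤ n, ph o'.1 x = ph o.1 x := fun x hx =>
      Finset.sum_congr rfl fun i hi => ha.1 i (lt_of_lt_of_le (Finset.mem_range.mp hi) hx)
    constructor
    · rintro ⟨x, hx⟩
      exact ⟨x, by rw [← key x (hx ▸ le_spair _ _)]; exact hx⟩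
    · rintro ⟨x, hx⟩
      exact ⟨x, by rw [key x (hx ▸ le_spair _ _)]; exact hx⟩
  | ca θ η i j j' l t ih =>
    intro h k n
    have h1 := ih fun o ho => (h o ho).1
    by_cases hn : ∃ m, Holds (ev t o) θ (Function.update (Function.update (rl l) i n) j m)
    · obtain ⟨m, hm⟩ := hn
      filter_upwards [holds_stable h1 θ (Function.update (Function.update (rl l) i n) j m)]
        with o' h2
      exact iff_of_true ⟨m, h2.2 hm⟩ ⟨m, hm⟩
    · have h3 := ((h o ho).2 n).not.1 hn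
      push Not at h3
      obtain ⟨m, hm⟩ := h3
      filter_upwards [holds_stable h1 η (Function.update (Function.update (rl l) i n) j' m), hD]
        with o' h2 h4
      exact iff_of_false (fun hc => hm (h2.1 (((h o' h4).2 n).1 hc m))) hn
  | put k' t1 t2 i1 i2 =>
    intro h k n
    by_cases hk : k = k'
    · subst hk
      simp only [ev, Function.update_self]
      exact i2 (fun o ho => (h o ho).2) 0 n
    · simp only [ev, Function.update_of_ne hk]
      exact i1 (fun o ho => (h o ho).1) k n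
  | rrt j t ih =>
    intro h k n
    have h1 := ih (fun o ho => (h o ho).1) 0
    obtain ⟨A, hA⟩ := (h o ho).2.2 (n + 1)
    have h2 := run_stable h1 (hD.mono fun o' ho' => (h o' ho').2.1) (h o ho).2.1
      (Y := fun o' s => o'.2 (j, s)) (Y0 := fun s => o.2 (j, s))
      (fun s => ev_nb.2 ⟨j + s + 1, fun o' _ ha => ha.2 j (by omega) s (by omega)⟩) _ A hA
    filter_upwards [h2] with o' h3
    exact (mem_out_iff h3).trans (mem_out_iff hA).symm

lemma posStable (t : Nm) : PosStable {o | dom t o} (fun o => ev t o 0) := by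
  intro o ho m hm
  obtain ⟨u, hu⟩ := ev_nb.1 (ev_stable t {o | dom t o} o ho (fun _ h => h) 0 m)
  exact ⟨u, fun o' h1 h2 => (hu o' h1 h2).2 hm⟩

/-- measurable hull of a name -/
def hull (t : Nm) (θ : ℕ → ℝ) (X : Om) : Set ℕ :=
  {m | ∃ u, m ∈ Gc {o | dom t o} (fun o => ev t o 0) u (θ, X)}

lemma hull_eq {t : Nm} {θ : ℕ → ℝ} {X : Om} (h : dom t (θ, X)) : hull t θ X = ev t (θ, X) 0 := by
  ext m
  exact ⟨fun ⟨u, hu⟩ => (mem_Gc.1 hu).2 _ h (Ag.refl _ _), fun hm => (posStable t).exists_mem h hm⟩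

lemma hull_meas (t : Nm) (θ : ℕ → ℝ) (n : ℕ) : Measurable fun X => n ∈ hull t θ X :=
  Measurable.exists fun u => meas_Gc _ _ u θ fun G => n ∈ G

lemma hull_sub (t : Nm) (θ : ℕ → ℝ) (X X' : Om) (h : ∀ j < cb t, ∀ s, X (j, s) = X' (j, s)) :
    hull t θ X ⊆ hull t θ X' := by
  rintro m ⟨u, hu⟩
  rw [mem_Gc] at hu
  refine ⟨u, mem_Gc.2 ⟨hu.1, fun o' ho' ha => ?_⟩⟩
  obtain ⟨e1, e2⟩ := ev_inv t o' (o'.1, fun p => if p.1 < cb t then o'.2 p else X p) rfl
    fun j hj s => (if_pos hj).symm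
  have := hu.2 _ (e2.1 ho') ⟨ha.1, fun j hj s hs => ?_⟩
  · simpa only [e1] using this
  · simp only
    split_ifs with h1
    · rw [ha.2 j hj s hs, h j h1 s]
    · rfl

lemma rrt_ae (t : Nm) (θ : ℕ → ℝ) :
    PP {X | dom t (θ, X) ∧ Valid (ev t (θ, X) 0) ∧ ∀ j, ¬ dom (.rrt j t) (θ, X)} = 0 := by
  refine null_of_le fun j0 => ⟨j0 + cb t, by omega, le_trans (measure_mono ?_)
    (fail_le (hull_meas t θ) (j0 + cb t) fun X s y => ?_)⟩
  · rintro X ⟨h1, h2, h3⟩
    simp only [Set.mem_ofPred_eq, hull_eq h1]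
    exact ⟨h2, fun h => h3 (j0 + cb t) ⟨h1, h2, h⟩⟩
  · have h : ∀ j < cb t, ∀ s', Function.update X (j0 + cb t, s) y (j, s') = X (j, s') :=
      fun j hj s' => Function.update_of_ne (by simp only [ne_eq, Prod.mk.injEq]; omega) _ _
    exact Set.Subset.antisymm (hull_sub t θ _ _ h) (hull_sub t θ _ _ fun j hj s' => (h j hj s').symm)

lemma exists_env {o : OO} {σ : ℕ → Set ℕ} (hσ : ∀ k, ∃ t, dom t o ∧ σ k = ev t o 0) (b : ℕ) :
    ∃ t, dom t o ∧ ∀ k < b, σ k = ev t o k := by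
  induction b with
  | zero => exact ⟨.base, trivial, fun _ h => absurd h (by omega)⟩
  | succ b ih =>
    obtain ⟨t1, h1, h2⟩ := ih
    obtain ⟨t2, h3, h4⟩ := hσ b
    refine ⟨.put b t1 t2, ⟨h1, h3⟩, fun k hk => ?_⟩
    by_cases hkb : k = b
    · subst hkb; simp only [ev, Function.update_self, h4]
    · simp only [ev, Function.update_of_ne hkb, h2 k (by omega)]

theorem main : ∃ S : Set (Set ℕ), IsRCA0 S ∧ RRT22 S ∧ ¬ HT22 S := by
  obtain ⟨θ, hθ⟩ := exists_generic (fun t : Nm => {o | dom t o}) (fun t o => ev t o 0) posStable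
  have hae : ∀ᵐ X ∂PP, ∀ t : Nm, ¬ (dom t (θ, X) ∧ Sol (Col θ) (ev t (θ, X) 0)) ∧
      ¬ (dom t (θ, X) ∧ Valid (ev t (θ, X) 0) ∧ ∀ j, ¬ dom (.rrt j t) (θ, X)) := by
    rw [ae_all_iff]
    exact fun t => (measure_eq_zero_iff_ae_notMem.1 (hθ t)).and
      (measure_eq_zero_iff_ae_notMem.1 (rrt_ae t θ))
  obtain ⟨X, hX⟩ := hae.exists
  refine ⟨{A | ∃ t, dom t (θ, X) ∧ A = ev t (θ, X) 0}, ?_, ?_, ?_⟩
  · refine ⟨⟨_, .base, trivial, rfl⟩, fun n => by omega, fun m n => by omega, fun m => by omega,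
      fun m n => by omega, fun m => by omega, fun m n => Nat.mul_succ m n, fun m => by omega,
      fun m n => by omega, fun φ i j ρ σ _ h0 hs n => Nat.rec h0 hs n, ?_⟩
    intro φ η i j j' ρ σ hσ h
    obtain ⟨a, ha⟩ := holds_dep φ
    obtain ⟨b, hb⟩ := holds_dep η
    obtain ⟨t, ht, ht'⟩ := exists_env hσ (a + b)
    have hρ : ∀ k < a + b, ρ k = rl ((List.range (a + b)).map ρ) k := by
      intro k hk
      simp [rl, List.getD_eq_getElem?_getD, hk]
    have e1 : ∀ n m, Holds σ φ (Function.update (Function.update ρ i n) j m) ↔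
        Holds (ev t (θ, X)) φ
          (Function.update (Function.update (rl ((List.range (a + b)).map ρ)) i n) j m) :=
      fun n m => ha _ _ _ _ (fun k hk => ht' k (by omega))
        (update_agree (update_agree (fun k hk => hρ k (by omega)) i n) j m)
    have e2 : ∀ n m, Holds σ η (Function.update (Function.update ρ i n) j' m) ↔
        Holds (ev t (θ, X)) η
          (Function.update (Function.update (rl ((List.range (a + b)).map ρ)) i n) j' m) :=
      fun n m => hb _ _ _ _ (fun k hk => ht' k (by omega))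
        (update_agree (update_agree (fun k hk => hρ k (by omega)) i n) j' m)
    simp only [e1, e2] at h ⊢
    exact ⟨.ca φ η i j j' ((List.range (a + b)).map ρ) t, ⟨ht, h⟩, rfl⟩
  · rintro F ⟨t, ht, rfl⟩ h1 h2
    have h3 := (hX t).2
    push Not at h3
    obtain ⟨j, hj⟩ := h3 ht ⟨h1, h2⟩
    exact ⟨_, ⟨.rrt j t, hj, rfl⟩, out_infinite hj.2.2, out_rainbow hj.2.2⟩
  · intro h
    obtain ⟨H, ⟨t, ht, rfl⟩, h1⟩ := h (Col θ) ⟨.base, trivial, rfl⟩
      (fun x => ⟨_, mem_Col.2 rfl, fun z hz => mem_Col.1 hz⟩)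
      (fun x z hz => by rw [mem_Col.1 hz]; split_ifs <;> simp)
    exact (hX t).1 ⟨ht, h1⟩

end Pool.Agent.P.MP_6fabb2_lc
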