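import Pool.Agent.P.MP_6fabb2_lc.Defs

/-! The probabilistic solver for the rainbow Ramsey theorem: combinatorial part. -/

namespace Pool.Agent.P.MP_6fabb2_lc

/-- `F` codes a 2-bounded colouring of pairs. -/
def Valid (F : Set ℕ) : Prop :=
  (∀ x y : ℕ, x < y → ∃! z, spair (spair x y) z ∈ F) ∧
    (∀ z x₁ y₁ x₂ y₂ x₃ y₃ : ℕ, x₁ < y₁ → x₂ < y₂ → x₃ < y₃ →
      spair (spair x₁ y₁) z ∈ F → spair (spair x₂ y₂) z ∈ F → spair (spair x₃ y₃) z ∈ F →
      (x₁ = x₂ ∧ y₁ = y₂) ∨ (x₁ = x₃ ∧ y₁ = y₃) ∨ (x₂ = x₃ ∧ y₂ = y₃))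

def Same (F : Set ℕ) (x y u v : ℕ) : Prop :=
  ∃ z, spair (spair x y) z ∈ F ∧ spair (spair u v) z ∈ F

def Rainbow (F : Set ℕ) (A : Finset ℕ) : Prop :=
  ∀ x ∈ A, ∀ y ∈ A, ∀ u ∈ A, ∀ v ∈ A, x < y → u < v → Same F x y u v → x = u ∧ y = v

def Acc' (F : Set ℕ) (A : Finset ℕ) (x : ℕ) : Prop := (∀ a ∈ A, a < x) ∧ Rainbow F (insert x A)

def IsNth (p : ℕ → Prop) (k x : ℕ) : Prop :=
  p x ∧ ∃ B : Finset ℕ, B.card = k ∧ ∀ y, y ∈ B ↔ (y < x ∧ p y)

def Run (F : Set ℕ) (Y : ℕ → ℕ) : ℕ → Finset ℕ → Prop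
  | 0, A => A = ∅
  | s + 1, A' => ∃ A x, Run F Y s A ∧ IsNth (Acc' F A) (Y s) x ∧ A' = insert x A

def Alive (F : Set ℕ) (A : Finset ℕ) : Prop := ∀ n, ∃ x, n ≤ x ∧ Acc' F A x

lemma IsNth.lt_of_lt {p : ℕ → Prop} {k k' x x' : ℕ} (h : IsNth p k x) (h' : IsNth p k' x')
    (hx : x < x') : k < k' := by
  obtain ⟨px, B, hB, hBm⟩ := h
  obtain ⟨_, B', hB', hBm'⟩ := h'
  rw [← hB, ← hB']
  refine Finset.card_lt_card ⟨fun y hy => ?_, fun hc => ?_⟩
  · rw [hBm] at hy; rw [hBm']; exact ⟨hy.1.trans hx, hy.2⟩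
  · have := (hBm x).1 (hc ((hBm' x).2 ⟨hx, px⟩))
    exact lt_irrefl _ this.1

lemma IsNth.unique {p : ℕ → Prop} {k x x' : ℕ} (h : IsNth p k x) (h' : IsNth p k x') : x = x' := by
  rcases lt_trichotomy x x' with hx | hx | hx
  · exact absurd (h.lt_of_lt h' hx) (lt_irrefl _)
  · exact hx
  · exact absurd (h'.lt_of_lt h hx) (lt_irrefl _)

lemma IsNth.inj {p : ℕ → Prop} {k k' x : ℕ} (h : IsNth p k x) (h' : IsNth p k' x) : k = k' := by
  obtain ⟨_, B, hB, hBm⟩ := h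
  obtain ⟨_, B', hB', hBm'⟩ := h'
  rw [← hB, ← hB']
  congr 1; ext y; rw [hBm, hBm']

lemma exists_isNth {p : ℕ → Prop} (hp : ∀ n, ∃ x, n ≤ x ∧ p x) (k : ℕ) : ∃ x, IsNth p k x := by
  classical
  have hinf : {x | p x}.Infinite := by
    refine Set.infinite_of_forall_exists_gt fun n => ?_
    obtain ⟨x, hx, px⟩ := hp (n + 1)
    exact ⟨x, px, hx⟩
  refine ⟨Nat.nth p k, Nat.nth_mem_of_infinite hinf k,
    (Finset.range (Nat.nth p k)).filter p, ?_, fun y => by simp⟩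
  rw [← Nat.count_eq_card_filter_range, Nat.count_nth_of_infinite hinf]

lemma Run.unique {F : Set ℕ} {Y : ℕ → ℕ} : ∀ {s : ℕ} {A A' : Finset ℕ},
    Run F Y s A → Run F Y s A' → A = A'
  | 0, _, _, h, h' => h.trans h'.symm
  | _ + 1, _, _, ⟨_, _, h1, h2, h3⟩, ⟨_, _, h1', h2', h3'⟩ => by
    obtain rfl := Run.unique h1 h1'
    obtain rfl := h2.unique h2'
    rw [h3, h3']

lemma Run.card_rainbow {F : Set ℕ} {Y : ℕ → ℕ} : ∀ {s : ℕ} {A : Finset ℕ},
    Run F Y s A → A.card = s ∧ Rainbow F A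
  | 0, _, h => by
    obtain rfl : _ = ∅ := h
    exact ⟨rfl, fun x hx => absurd hx (by simp)⟩
  | _ + 1, _, ⟨A, x, h1, h2, h3⟩ => by
    subst h3
    refine ⟨?_, h2.1.2⟩
    rw [Finset.card_insert_of_notMem (fun hx => lt_irrefl _ (h2.1.1 x hx)),
      (Run.card_rainbow h1).1]

lemma Run.mono {F : Set ℕ} {Y : ℕ → ℕ} {s : ℕ} {A : Finset ℕ} (h : Run F Y s A) :
    ∀ {d : ℕ} {A' : Finset ℕ}, Run F Y (s + d) A' → A ⊆ A' ∧ ∀ x ∈ A', x ∉ A → s ≤ x
  | 0, _, h' => by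
    obtain rfl := h.unique h'
    exact ⟨Finset.Subset.refl _, fun x hx hx' => absurd hx hx'⟩
  | d + 1, _, ⟨B, x, h1, h2, h3⟩ => by
    subst h3
    obtain ⟨i1, i2⟩ := Run.mono h h1
    refine ⟨i1.trans (Finset.subset_insert _ _), fun y hy hy' => ?_⟩
    rcases Finset.mem_insert.mp hy with rfl | hy
    · have : B ⊆ Finset.range y := fun a ha => Finset.mem_range.mpr (h2.1.1 a ha)
      have := Finset.card_le_card this
      rw [(Run.card_rainbow h1).1, Finset.card_range] at this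
      exact le_trans (Nat.le_add_right s d) this
    · exact i2 y hy hy'

lemma Run.congr {F : Set ℕ} {Y Y' : ℕ → ℕ} : ∀ {s : ℕ} {A : Finset ℕ}, (∀ i < s, Y i = Y' i) →
    Run F Y s A → Run F Y' s A
  | 0, _, _, h => h
  | s + 1, _, hY, ⟨A, x, h1, h2, h3⟩ =>
    ⟨A, x, Run.congr (fun i hi => hY i (by omega)) h1, hY s (by omega) ▸ h2, h3⟩

/-- the output of the solver -/
def Out (F : Set ℕ) (Y : ℕ → ℕ) : Set ℕ := {n | ∃ s A, Run F Y s A ∧ n ∈ A}

lemma mem_out_iff {F : Set ℕ} {Y : ℕ → ℕ} {n : ℕ} {A : Finset ℕ} (h : Run F Y (n + 1) A) :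
    n ∈ Out F Y ↔ n ∈ A := by
  refine ⟨?_, fun hn => ⟨_, _, h, hn⟩⟩
  rintro ⟨s, A', h', hn⟩
  rcases le_total s (n + 1) with hs | hs
  · obtain ⟨d, hd⟩ := Nat.exists_eq_add_of_le hs
    rw [hd] at h
    exact (h'.mono h).1 hn
  · obtain ⟨d, hd⟩ := Nat.exists_eq_add_of_le hs
    rw [hd] at h'
    by_contra hc
    have := (h.mono h').2 n hn hc
    omega

lemma out_infinite {F : Set ℕ} {Y : ℕ → ℕ} (h : ∀ s, ∃ A, Run F Y s A) (n : ℕ) :
    ∃ m ∈ Out F Y, n < m := by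
  obtain ⟨A, hA⟩ := h (n + 2)
  by_contra hc
  push Not at hc
  have : A ⊆ Finset.range (n + 1) := fun a ha =>
    Finset.mem_range.mpr (Nat.lt_succ_of_le (hc a ⟨_, _, hA, ha⟩))
  have := Finset.card_le_card this
  rw [hA.card_rainbow.1, Finset.card_range] at this
  omega

lemma out_rainbow {F : Set ℕ} {Y : ℕ → ℕ} (h : ∀ s, ∃ A, Run F Y s A) :
    ∀ x ∈ Out F Y, ∀ y ∈ Out F Y, ∀ u ∈ Out F Y, ∀ v ∈ Out F Y, x < y → u < v →
      ∀ z, spair (spair x y) z ∈ F → spair (spair u v) z ∈ F → x = u ∧ y = v := by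
  intro x hx y hy u hu v hv hxy huv z h1 h2
  obtain ⟨A, hA⟩ := h (x + y + u + v + 1)
  have key : ∀ t ∈ Out F Y, t ≤ x + y + u + v → t ∈ A := by
    intro t ht hle
    obtain ⟨B, hB⟩ := h (t + 1)
    obtain ⟨d, hd⟩ := Nat.exists_eq_add_of_le (show t + 1 ≤ x + y + u + v + 1 by omega)
    rw [hd] at hA
    exact (hB.mono hA).1 ((mem_out_iff hB).1 ht)
  exact hA.card_rainbow.2 x (key x hx (by omega)) y (key y hy (by omega)) u (key u hu (by omega))
    v (key v hv (by omega)) hxy huv ⟨z, h1, h2⟩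

lemma alive_empty (F : Set ℕ) : Alive F ∅ := by
  intro n
  refine ⟨n, le_rfl, fun a ha => absurd ha (by simp), ?_⟩
  intro x hx y hy u _ v _ hxy
  simp only [insert_empty_eq, Finset.mem_singleton] at hx hy
  omega

lemma exists_death {F : Set ℕ} {Y : ℕ → ℕ} (h : ¬ ∀ s, ∃ A, Run F Y s A) :
    ∃ s A x, Run F Y s A ∧ Alive F A ∧ IsNth (Acc' F A) (Y s) x ∧ ¬ Alive F (insert x A) := by
  by_contra hc
  push Not at hc
  apply h
  have : ∀ s, ∃ A, Run F Y s A ∧ Alive F A := by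
    intro s
    induction s with
    | zero => exact ⟨∅, rfl, alive_empty F⟩
    | succ s ih =>
      obtain ⟨A, h1, h2⟩ := ih
      obtain ⟨x, hx⟩ := exists_isNth h2 (Y s)
      exact ⟨insert x A, ⟨A, x, h1, hx, rfl⟩, hc s A x h1 h2 hx⟩
  exact fun s => (this s).imp fun _ h => h.1

lemma same_bound {F : Set ℕ} (hF : Valid F) {x y : ℕ} (hxy : x < y) :
    ∃ b, ∀ u w, u < w → Same F u w x y → w < b := by
  obtain ⟨z, hz, hz'⟩ := hF.1 x y hxy
  by_cases h : ∃ u w, u < w ∧ Same F u w x y ∧ y < w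
  · obtain ⟨u, w, huw, ⟨z1, h1, h1'⟩, hw⟩ := h
    refine ⟨w + 1, fun u' w' huw' ⟨z2, h2, h2'⟩ => ?_⟩
    obtain rfl := hz' z1 h1'
    obtain rfl := hz' z2 h2'
    have := hF.2 _ x y u w u' w' hxy huw huw' hz h1 h2
    omega
  · push Not at h
    exact ⟨y + 1, fun u w huw hs => Nat.lt_succ_of_le (h u w huw hs)⟩

lemma Same.symm {F : Set ℕ} {x y u v : ℕ} (h : Same F x y u v) : Same F u v x y :=
  let ⟨z, h1, h2⟩ := h; ⟨z, h2, h1⟩

/-- At most `|A|` acceptable extensions are dead. -/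
lemma dead_card {F : Set ℕ} (hF : Valid F) {A : Finset ℕ} (hA : Alive F A) (B : Finset ℕ)
    (hB : ∀ x ∈ B, Acc' F A x ∧ ¬ Alive F (insert x A)) : B.card ≤ A.card := by
  classical
  -- a bound beyond which nothing accidental happens
  have h1 : ∀ x ∈ B, ∃ n, ∀ w, n ≤ w → ¬ Acc' F (insert x A) w := by
    intro x hx
    have := (hB x hx).2
    unfold Alive at this
    push Not at this
    exact this
  have h2 : ∀ p : ℕ × ℕ, ∃ b, p.1 < p.2 → ∀ u w, u < w → Same F u w p.1 p.2 → w < b := by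
    intro p
    by_cases hp : p.1 < p.2
    · obtain ⟨b, hb⟩ := same_bound hF hp
      exact ⟨b, fun _ => hb⟩
    · exact ⟨0, fun h => absurd h hp⟩
  choose! n hn using h1
  choose b hb using h2
  obtain ⟨w, hw, hwA⟩ := hA ((B.sup n) + ((A ∪ B) ×ˢ (A ∪ B)).sup b + (B.sup id + 1))
  have hwn : ∀ x ∈ B, n x ≤ w := fun x hx => (Finset.le_sup hx).trans (by omega)
  have hwb : ∀ x ∈ A ∪ B, ∀ y ∈ A ∪ B, b (x, y) ≤ w := fun x hx y hy =>
    (Finset.le_sup (f := b) (Finset.mk_mem_product hx hy)).trans (by omega)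
  have hwB : ∀ x ∈ B, x < w := fun x hx => by
    have : x ≤ B.sup id := Finset.le_sup (f := id) hx
    omega
  have h3 : ∀ x ∈ B, ∃ a ∈ A, Same F x w a w := by
    intro x hx
    have hx1 := (hB x hx).1
    have hnot := hn x hx w (hwn x hx)
    have hlt : ∀ a ∈ insert x A, a < w := by
      intro a ha
      rcases Finset.mem_insert.mp ha with rfl | ha
      · exact hwB _ hx
      · exact hwA.1 a ha
    have hsub : ∀ a ∈ insert x A, a ∈ A ∪ B := by
      intro a ha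
      rcases Finset.mem_insert.mp ha with rfl | ha
      · exact Finset.mem_union_right _ hx
      · exact Finset.mem_union_left _ ha
    have hnr : ¬ Rainbow F (insert w (insert x A)) := fun h => hnot ⟨hlt, h⟩
    unfold Rainbow at hnr
    push Not at hnr
    obtain ⟨p, hp, q, hq, u, hu, v, hv, hpq, huv, hs, hne⟩ := hnr
    have hp' : p ∈ insert x A := by
      rcases Finset.mem_insert.mp hp with rfl | hp
      · rcases Finset.mem_insert.mp hq with rfl | hq
        · omega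
        · have := hlt q hq; omega
      · exact hp
    have hu' : u ∈ insert x A := by
      rcases Finset.mem_insert.mp hu with rfl | hu
      · rcases Finset.mem_insert.mp hv with rfl | hv
        · omega
        · have := hlt v hv; omega
      · exact hu
    rcases Finset.mem_insert.mp hq with rfl | hq'
    · rcases Finset.mem_insert.mp hv with rfl | hv'
      · have hpu : p ≠ u := fun h => hne h rfl
        rcases Finset.mem_insert.mp hp' with rfl | hpA
        · rcases Finset.mem_insert.mp hu' with rfl | huA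
          · exact absurd rfl hpu
          · exact ⟨u, huA, hs⟩
        · rcases Finset.mem_insert.mp hu' with rfl | huA
          · exact ⟨p, hpA, hs.symm⟩
          · exact absurd (hwA.2 p (Finset.mem_insert_of_mem hpA) v (Finset.mem_insert_self _ _)
              u (Finset.mem_insert_of_mem huA) v (Finset.mem_insert_self _ _) hpq huv hs).1 hpu
      · have := hb (u, v) huv p q hpq hs
        have := hwb u (hsub u hu') v (hsub v hv')
        omega
    · rcases Finset.mem_insert.mp hv with rfl | hv'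
      · have := hb (p, q) hpq u v huv hs.symm
        have := hwb p (hsub p hp') q (hsub q hq')
        omega
      · have := hx1.2 p hp' q hq' u hu' v hv' hpq huv hs
        exact absurd this.2 (hne this.1)
  choose! a ha ha' using h3
  refine Finset.card_le_card_of_injOn a (fun x hx => ha x hx) fun x hx x' hx' hxx => ?_
  by_contra hne
  have hx0 : x ∈ B := hx
  have hx0' : x' ∈ B := hx'
  obtain ⟨z, e1, e2⟩ := ha' x hx0
  obtain ⟨z', e1', e2'⟩ := ha' x' hx0'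
  rw [← hxx] at e2'
  have haw : a x < w := hwA.1 _ (ha x hx0)
  obtain rfl := (hF.1 _ _ haw).unique e2 e2'
  have := hF.2 _ x w x' w (a x) w (hwB x hx0) (hwB x' hx0') haw e1 e1' e2
  have l1 := (hB x hx0).1.1 _ (ha x hx0)
  have l2 := (hB x' hx0').1.1 _ (ha x hx0)
  omega

end Pool.Agent.P.MP_6fabb2_lc
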