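import Pool.Agent.P.MP_6fabb2_lc.Rainbow
import Pool.Agent.P.MP_6fabb2_lc.Prob

/-! Stability, measurability and success probability of the rainbow solver. -/

namespace Pool.Agent.P.MP_6fabb2_lc

open MeasureTheory Filter
open scoped ENNReal

section stable

variable {α : Type} {l : Filter α} {F : α → Set ℕ} {F0 : Set ℕ}

lemma same_stable (hF : ∀ n, ∀ᶠ o in l, n ∈ F o ↔ n ∈ F0) (hv : ∀ᶠ o in l, Valid (F o))
    (hv0 : Valid F0) (x y u v : ℕ) :
    ∀ᶠ o in l, x < y → u < v → (Same (F o) x y u v ↔ Same F0 x y u v) := by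
  by_cases hxy : x < y
  swap
  · exact Eventually.of_forall fun _ h => absurd h hxy
  by_cases huv : u < v
  swap
  · exact Eventually.of_forall fun _ _ h => absurd h huv
  obtain ⟨z, hz, hz'⟩ := hv0.1 x y hxy
  obtain ⟨w, hw, hw'⟩ := hv0.1 u v huv
  filter_upwards [hF (spair (spair x y) z), hF (spair (spair u v) w), hv] with o h1 h2 h3 _ _
  constructor
  · rintro ⟨c, c1, c2⟩
    obtain rfl := (h3.1 x y hxy).unique c1 (h1.2 hz)
    obtain rfl := (h3.1 u v huv).unique c2 (h2.2 hw)
    exact ⟨c, hz, hw⟩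
  · rintro ⟨c, c1, c2⟩
    obtain rfl := hz' c c1
    obtain rfl := hw' c c2
    exact ⟨c, h1.2 hz, h2.2 hw⟩

lemma acc_stable (hF : ∀ n, ∀ᶠ o in l, n ∈ F o ↔ n ∈ F0) (hv : ∀ᶠ o in l, Valid (F o))
    (hv0 : Valid F0) (A : Finset ℕ) (t : ℕ) :
    ∀ᶠ o in l, Acc' (F o) A t ↔ Acc' F0 A t := by
  have h : ∀ᶠ o in l, ∀ x ∈ insert t A, ∀ y ∈ insert t A, ∀ u ∈ insert t A, ∀ v ∈ insert t A,
      x < y → u < v → (Same (F o) x y u v ↔ Same F0 x y u v) := by
    simp only [Filter.eventually_all_finset]
    exact fun x _ y _ u _ v _ => same_stable hF hv hv0 x y u v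
  filter_upwards [h] with o ho
  refine and_congr Iff.rfl ⟨fun h1 x hx y hy u hu v hv hxy huv hs => ?_,
    fun h1 x hx y hy u hu v hv hxy huv hs => ?_⟩
  · exact h1 x hx y hy u hu v hv hxy huv ((ho x hx y hy u hu v hv hxy huv).2 hs)
  · exact h1 x hx y hy u hu v hv hxy huv ((ho x hx y hy u hu v hv hxy huv).1 hs)

lemma run_stable (hF : ∀ n, ∀ᶠ o in l, n ∈ F o ↔ n ∈ F0) (hv : ∀ᶠ o in l, Valid (F o))
    (hv0 : Valid F0) {Y : α → ℕ → ℕ} {Y0 : ℕ → ℕ} (hY : ∀ s, ∀ᶠ o in l, Y o s = Y0 s) :
    ∀ (s : ℕ) (A : Finset ℕ), Run F0 Y0 s A → ∀ᶠ o in l, Run (F o) (Y o) s A := by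
  intro s
  induction s with
  | zero => exact fun A h => Eventually.of_forall fun _ => h
  | succ s ih =>
    rintro A' ⟨A, x, h1, ⟨h2, B, hB, hB'⟩, rfl⟩
    have h : ∀ᶠ o in l, ∀ y ∈ Finset.range (x + 1), (Acc' (F o) A y ↔ Acc' F0 A y) := by
      simp only [Filter.eventually_all_finset]
      exact fun y _ => acc_stable hF hv hv0 A y
    filter_upwards [ih A h1, hY s, h] with o o1 o2 o3
    refine ⟨A, x, o1, ⟨(o3 x (by simp)).2 h2, B, hB.trans o2.symm, fun y => ?_⟩, rfl⟩
    rw [hB']
    exact and_congr_right fun hy => (o3 y (Finset.mem_range.mpr (by omega))).symm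

end stable

section meas

variable {F : Om → Set ℕ} (hF : ∀ n, Measurable fun X => n ∈ F X)
include hF

lemma meas_valid : Measurable fun X => Valid (F X) := by
  refine Measurable.and ?_ ?_
  · refine Measurable.forall fun x => Measurable.forall fun y => measurable_const.imp ?_
    exact Measurable.exists fun z => (hF _).and (Measurable.forall fun w => (hF _).imp measurable_const)
  · refine Measurable.forall fun _ => Measurable.forall fun _ => Measurable.forall fun _ =>
      Measurable.forall fun _ => Measurable.forall fun _ => Measurable.forall fun _ =>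
      Measurable.forall fun _ => measurable_const.imp (measurable_const.imp (measurable_const.imp
        ((hF _).imp ((hF _).imp ((hF _).imp measurable_const)))))

lemma meas_acc (A : Finset ℕ) (t : ℕ) : Measurable fun X => Acc' (F X) A t := by
  refine measurable_const.and ?_
  refine Measurable.forall fun _ => measurable_const.imp <| Measurable.forall fun _ =>
    measurable_const.imp <| Measurable.forall fun _ => measurable_const.imp <|
    Measurable.forall fun _ => measurable_const.imp <| measurable_const.imp <|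
    measurable_const.imp <| Measurable.imp ?_ measurable_const
  exact Measurable.exists fun z => (hF _).and (hF _)

lemma meas_nth (A : Finset ℕ) (i : ℕ × ℕ) (x : ℕ) :
    Measurable fun X : Om => IsNth (Acc' (F X) A) (X i) x := by
  refine (meas_acc hF A x).and (Measurable.exists fun B => Measurable.and ?_ ?_)
  · exact (measurable_of_countable (fun n : ℕ => B.card = n)).comp (measurable_pi_apply i)
  · exact Measurable.forall fun y => measurable_const.iff (measurable_const.and (meas_acc hF A y))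

lemma meas_run (j : ℕ) : ∀ (s : ℕ) (A : Finset ℕ),
    Measurable fun X : Om => Run (F X) (fun s => X (j, s)) s A := by
  intro s
  induction s with
  | zero => exact fun A => measurable_const
  | succ s ih =>
    intro A'
    exact Measurable.exists fun A => Measurable.exists fun x =>
      (ih A).and ((meas_nth hF A (j, s) x).and measurable_const)

lemma meas_alive (A : Finset ℕ) : Measurable fun X => Alive (F X) A :=
  Measurable.forall fun _ => Measurable.exists fun x => measurable_const.and (meas_acc hF A x)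

theorem fail_le (j : ℕ) (hinv : ∀ X s y, F (Function.update X (j, s) y) = F X) :
    PP {X | Valid (F X) ∧ ¬ ∀ s, ∃ A, Run (F X) (fun s => X (j, s)) s A} ≤ 2⁻¹ ^ j * 2 := by
  classical
  set E : ℕ → Set Om := fun s => {X | Valid (F X) ∧ ∃ A x, Run (F X) (fun s => X (j, s)) s A ∧
    Alive (F X) A ∧ IsNth (Acc' (F X) A) (X (j, s)) x ∧ ¬ Alive (F X) (insert x A)} with hE
  have hEm : ∀ s, MeasurableSet (E s) := fun s =>
    ((meas_valid hF).and (Measurable.exists fun A => Measurable.exists fun x =>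
      (meas_run hF j s A).and ((meas_alive hF A).and ((meas_nth hF A (j, s) x).and
        (meas_alive hF _).not)))).setOf
  have hcover : {X | Valid (F X) ∧ ¬ ∀ s, ∃ A, Run (F X) (fun s => X (j, s)) s A} ⊆ ⋃ s, E s := by
    rintro X ⟨h1, h2⟩
    obtain ⟨s, h3⟩ := exists_death h2
    exact Set.mem_iUnion.mpr ⟨s, h1, h3⟩
  have hb : ∀ s, PP (E s) ≤ 2⁻¹ ^ (j + s) := by
    intro s
    refine slice (hEm s) (j, s) fun X => nu_le (j, s) (s := s) (fun B hB => ?_)
      (Nat.lt_two_pow_self.le.trans (Nat.pow_le_pow_right (by norm_num) (Nat.le_add_left s j)))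
    have h1 : ∀ y ∈ B, Valid (F X) ∧ ∃ A x, Run (F X) (fun s => X (j, s)) s A ∧
        Alive (F X) A ∧ IsNth (Acc' (F X) A) y x ∧ ¬ Alive (F X) (insert x A) := by
      intro y hy
      have := hB y hy
      simp only [hE, Set.mem_ofPred_eq, hinv, Function.update_self] at this
      obtain ⟨a1, A, x, a2, a3⟩ := this
      refine ⟨a1, A, x, Run.congr (fun i hi => ?_) a2, a3⟩
      exact Function.update_of_ne (by simp only [ne_eq, Prod.mk.injEq]; omega) _ _
    rcases B.eq_empty_or_nonempty with rfl | ⟨y0, hy0⟩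
    · simp
    obtain ⟨hv, A, -, hA, hal, -⟩ := h1 y0 hy0
    have h2 : ∀ y ∈ B, ∃ x, IsNth (Acc' (F X) A) y x ∧ ¬ Alive (F X) (insert x A) := by
      intro y hy
      obtain ⟨-, A', x, hA', -, a1, a2⟩ := h1 y hy
      obtain rfl := hA.unique hA'
      exact ⟨x, a1, a2⟩
    choose! g hg hg' using h2
    have h3 := dead_card hv hal (B.image g) fun x hx => by
      obtain ⟨y, hy, rfl⟩ := Finset.mem_image.mp hx
      exact ⟨(hg y hy).1, hg' y hy⟩
    have h4 : Set.InjOn g B := fun y hy y' hy' h => (hg y hy).inj (h ▸ hg y' hy')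
    rw [Finset.card_image_of_injOn h4, hA.card_rainbow.1] at h3
    exact h3
  calc _ ≤ PP (⋃ s, E s) := measure_mono hcover
    _ ≤ ∑' s, PP (E s) := measure_iUnion_le _
    _ ≤ ∑' s, (2⁻¹ : ℝ≥0∞) ^ (j + s) := ENNReal.tsum_le_tsum hb
    _ = _ := by
      simp only [pow_add]
      rw [ENNReal.tsum_mul_left, ENNReal.tsum_geometric_two]

end meas

end Pool.Agent.P.MP_6fabb2_lc
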